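import Pool.Agent.Lib.MP_81222b_lc.Final

/-!
# MP_81222b_lc, Q1: the negated form holds

There are a finitely axiomatized, consistent, sequential theory `A` and an interpretation `N` of
`S^1_2` in `A` such that, for every Goedel numbering `g` which is effectively equivalent to `Fm.gn`,
some extension `U` of `S^1_2` in the language of `S^1_2` is mutually interpretable with
`A + TB^-_N`.
-/

open Pool.Agent.MP81222b in
/-- The negated form of Q1. -/
theorem Pool.Agent.Results.MP_81222b_lc.NegatedForm.result :
    ∃ (L : Lang) (A : Set (Fm L)) (N : Interp Lar L),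
      L.FinSig ∧ A.Finite ∧ (∀ f ∈ A, f.Closed) ∧ (∃ S : Str L, Pool.Agent.MP81222b.Mod S A) ∧
      Sequential A ∧ N.Interprets A S12 ∧
      ∀ g : Fm L → ℕ, EffNum g →
        ∃ U : Set (Fm Lar), (∀ f ∈ U, f.Closed) ∧ S12 ⊆ U ∧ MutInt U (addTB A N g) :=
  main
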